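import Pool.Agent.Q291.HEA.Stm

/-!
# Project HEA: basic facts on `F`, `ser`, `par` (for the jobs D3, D4)
-/

set_option autoImplicit false

namespace Pool.Agent.Q291.HEA

open MeasureTheory Filter Topology Set

namespace DB

theorem cosh_add_le (u v : ℝ) : Real.cosh (u + v) ≤ Real.exp |v| * Real.cosh u := by
  have h1 : Real.cosh (u + v) = (Real.exp (u + v) + Real.exp (-(u + v))) / 2 := Real.cosh_eq _
  have h2 : Real.cosh u = (Real.exp u + Real.exp (-u)) / 2 := Real.cosh_eq _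
  rw [h1, h2]
  have h3 : Real.exp (u + v) ≤ Real.exp |v| * Real.exp u := by
    rw [← Real.exp_add]
    exact Real.exp_le_exp.mpr (by linarith [le_abs_self v])
  have h4 : Real.exp (-(u + v)) ≤ Real.exp |v| * Real.exp (-u) := by
    rw [← Real.exp_add]
    exact Real.exp_le_exp.mpr (by linarith [neg_le_abs v])
  linarith

theorem F_comm (x y : ℝ) : F x y = F y x := by
  unfold F
  rw [add_comm, ← Real.cosh_neg (x - y), neg_sub]

theorem F_abs_le_right (x y : ℝ) : |F x y| ≤ |y| := by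
  have hc1 : 0 < Real.cosh (x + y) := Real.cosh_pos _
  have hc2 : 0 < Real.cosh (x - y) := Real.cosh_pos _
  have e2 : |2 * y| = 2 * |y| := by rw [abs_mul, abs_two]
  unfold F
  rw [Real.log_div hc1.ne' hc2.ne', abs_mul, abs_of_pos (by norm_num : (0 : ℝ) < 1 / 2)]
  have h1 : Real.log (Real.cosh (x + y)) ≤ 2 * |y| + Real.log (Real.cosh (x - y)) := by
    have h := cosh_add_le (x - y) (2 * y)
    rw [show x - y + 2 * y = x + y by ring, e2] at h
    calc Real.log (Real.cosh (x + y)) ≤ Real.log (Real.exp (2 * |y|) * Real.cosh (x - y)) :=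
          Real.log_le_log hc1 h
      _ = 2 * |y| + Real.log (Real.cosh (x - y)) := by
          rw [Real.log_mul (Real.exp_pos _).ne' hc2.ne', Real.log_exp]
  have h2 : Real.log (Real.cosh (x - y)) ≤ 2 * |y| + Real.log (Real.cosh (x + y)) := by
    have h := cosh_add_le (x + y) (-(2 * y))
    rw [show x + y + -(2 * y) = x - y by ring, abs_neg, e2] at h
    calc Real.log (Real.cosh (x - y)) ≤ Real.log (Real.exp (2 * |y|) * Real.cosh (x + y)) :=
          Real.log_le_log hc2 h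
      _ = 2 * |y| + Real.log (Real.cosh (x + y)) := by
          rw [Real.log_mul (Real.exp_pos _).ne' hc1.ne', Real.log_exp]
  have h3 : |Real.log (Real.cosh (x + y)) - Real.log (Real.cosh (x - y))| ≤ 2 * |y| := by
    rw [abs_le]; constructor <;> linarith
  linarith

theorem F_abs_le_left (x y : ℝ) : |F x y| ≤ |x| := by
  rw [F_comm]; exact F_abs_le_right y x

theorem F_neg_left (x y : ℝ) : F (-x) y = -F x y := by
  have hc1 : 0 < Real.cosh (x + y) := Real.cosh_pos _
  have hc2 : 0 < Real.cosh (x - y) := Real.cosh_pos _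
  unfold F
  have e1 : Real.cosh (-x + y) = Real.cosh (x - y) := by
    rw [← Real.cosh_neg (x - y)]; congr 1; ring
  have e2 : Real.cosh (-x - y) = Real.cosh (x + y) := by
    rw [← Real.cosh_neg (x + y)]; congr 1; ring
  rw [e1, e2, Real.log_div hc1.ne' hc2.ne', Real.log_div hc2.ne' hc1.ne']
  ring

theorem F_meas : Measurable fun z : ℝ × ℝ => F z.1 z.2 := by
  unfold F
  have h1 : Measurable fun z : ℝ × ℝ => Real.cosh (z.1 + z.2) :=
    Real.continuous_cosh.measurable.comp (by fun_prop)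
  have h2 : Measurable fun z : ℝ × ℝ => Real.cosh (z.1 - z.2) :=
    Real.continuous_cosh.measurable.comp (by fun_prop)
  exact (Real.measurable_log.comp (h1.div h2)).const_mul _

theorem ser_prob (μ : Measure ℝ) [IsProbabilityMeasure μ] : IsProbabilityMeasure (ser F μ) :=
  Measure.isProbabilityMeasure_map F_meas.aemeasurable

theorem ser_sym (μ : Measure ℝ) [IsProbabilityMeasure μ] (h : Sym μ) : Sym (ser F μ) := by
  unfold Sym ser
  have hneg : Measurable fun x : ℝ => -x := measurable_neg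
  rw [Measure.map_map hneg F_meas]
  have h1 : (fun x : ℝ => -x) ∘ (fun z : ℝ × ℝ => F z.1 z.2) =
      (fun z : ℝ × ℝ => F z.1 z.2) ∘ (Prod.map (fun x : ℝ => -x) id) := by
    ext z
    simp only [Function.comp, Prod.map, id]
    rw [F_neg_left]
  rw [h1, ← Measure.map_map F_meas (hneg.prodMap measurable_id)]
  congr 1
  rw [← Measure.map_prod_map μ μ hneg measurable_id, Measure.map_id]
  unfold Sym at h
  rw [h]

/-- the mean absolute value of `ser F μ` -/
theorem ser_lint (μ : Measure ℝ) [IsProbabilityMeasure μ] :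
    ∫⁻ x, ‖x‖ₑ ∂(ser F μ) ≤ ∫⁻ x, ‖x‖ₑ ∂μ := by
  unfold ser
  rw [lintegral_map (by fun_prop) F_meas]
  calc ∫⁻ z : ℝ × ℝ, ‖F z.1 z.2‖ₑ ∂(μ.prod μ) ≤ ∫⁻ z : ℝ × ℝ, ‖z.1‖ₑ ∂(μ.prod μ) := by
        apply lintegral_mono
        intro z
        simp only
        rw [← ofReal_norm, ← ofReal_norm]
        exact ENNReal.ofReal_le_ofReal (F_abs_le_left z.1 z.2)
    _ = ∫⁻ x, ‖x‖ₑ ∂μ := by
        rw [lintegral_prod _ (by fun_prop)]
        simp

theorem par_two (ν : Measure ℝ) [IsProbabilityMeasure ν] : par ν 2 = Measure.conv ν ν := by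
  have h1 : par ν 1 = ν := by
    change Measure.conv ν (Measure.dirac 0) = ν
    exact Measure.conv_dirac_zero ν
  change Measure.conv ν (par ν 1) = _
  rw [h1]

theorem par_two_prob (ν : Measure ℝ) [IsProbabilityMeasure ν] : IsProbabilityMeasure (par ν 2) := by
  rw [par_two]
  infer_instance

theorem par_lint (ν : Measure ℝ) [IsProbabilityMeasure ν] :
    ∫⁻ x, ‖x‖ₑ ∂(par ν 2) ≤ 2 * ∫⁻ x, ‖x‖ₑ ∂ν := by
  rw [par_two, Measure.conv, lintegral_map (by fun_prop) (by fun_prop)]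
  calc ∫⁻ z : ℝ × ℝ, ‖z.1 + z.2‖ₑ ∂(ν.prod ν) ≤
      ∫⁻ z : ℝ × ℝ, (‖z.1‖ₑ + ‖z.2‖ₑ) ∂(ν.prod ν) := lintegral_mono fun z => enorm_add_le _ _
    _ = ∫⁻ z : ℝ × ℝ, ‖z.1‖ₑ ∂(ν.prod ν) + ∫⁻ z : ℝ × ℝ, ‖z.2‖ₑ ∂(ν.prod ν) :=
        lintegral_add_left (by fun_prop) _
    _ = 2 * ∫⁻ x, ‖x‖ₑ ∂ν := by
        rw [lintegral_prod _ (by fun_prop), lintegral_prod _ (by fun_prop)]
        simp
        ring

/-- integrals of the absolute value -/
theorem abs_int (μ : Measure ℝ) : ∫ x, |x| ∂μ = (∫⁻ x, ‖x‖ₑ ∂μ).toReal := by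
  rw [integral_eq_lintegral_of_nonneg_ae (Eventually.of_forall fun x => abs_nonneg x)
    (by fun_prop)]
  congr 1
  apply lintegral_congr
  intro x
  rw [← ofReal_norm, Real.norm_eq_abs]

theorem int_iff (μ : Measure ℝ) : Integrable (fun x : ℝ => x) μ ↔ ∫⁻ x, ‖x‖ₑ ∂μ < ⊤ :=
  ⟨fun h => h.2, fun h => ⟨by fun_prop, h⟩⟩

end DB

end Pool.Agent.Q291.HEA
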