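import Pool.Agent.Q291.HEA.Stm

/-!
# Project HEA, job D2
-/

set_option autoImplicit false

namespace Pool.Agent.Q291.HEA

open Finset

theorem sum_fin_succ_fun {α M : Type} [Fintype α] [AddCommMonoid M] (n : ℕ)
    (f : (Fin (n + 1) → α) → M) :
    ∑ a : Fin (n + 1) → α, f a = ∑ x : α, ∑ a : Fin n → α, f (Fin.cons x a) := by
  rw [← (Fin.consEquiv (fun _ : Fin (n + 1) => α)).sum_comp, Fintype.sum_prod_type]
  rfl

theorem sum4 {α M : Type} [Fintype α] [AddCommMonoid M] (f : (Fin 4 → α) → M) :
    ∑ a : Fin 4 → α, f a = ∑ x : α, ∑ y : α, ∑ z : α, ∑ w : α, f ![x, y, z, w] := by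
  rw [sum_fin_succ_fun]
  refine sum_congr rfl fun x _ => ?_
  rw [sum_fin_succ_fun]
  refine sum_congr rfl fun y _ => ?_
  rw [sum_fin_succ_fun]
  refine sum_congr rfl fun z _ => ?_
  rw [sum_fin_succ_fun]
  refine sum_congr rfl fun w _ => ?_
  rw [Fintype.sum_unique]
  rfl

theorem card4 (a b c d : Bool × Bool) :
    (univ.filter fun i : Fin 4 => ((![a, b, c, d] : Fin 4 → Bool × Bool) i).1 = true).card =
      (if a.1 then 1 else 0) + (if b.1 then 1 else 0) + (if c.1 then 1 else 0) +
        (if d.1 then 1 else 0) := by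
  rw [card_filter, Fin.sum_univ_four]
  rfl

/-- the linear form on indicator values -/
noncomputable def lm (h : ℕ) (a b c d : ℝ) : ℝ :=
  if h = 4 then (max a b + max c d) / 2 - (|max a b - max c d| + min a b + min c d) / 4
  else if h = 3 then (max a b + max c d - max (min a b) (min c d)) / 2
  else min (max a b) (max c d)

theorem lam_eq (h : ℕ) (a b c d : Bool × Bool) :
    lam h (fun i => if ((![a, b, c, d] : Fin 4 → Bool × Bool) i).2 then (1 : ℝ) else 0) =
      lm h (if a.2 then 1 else 0) (if b.2 then 1 else 0) (if c.2 then 1 else 0)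
        (if d.2 then 1 else 0) := rfl

theorem val_low (x : ℝ) (hx : x ≤ 1 / 2) :
    ∑ a : Fin 4 → Bool × Bool, (∏ i, prb x (a i)) *
      lam (Finset.univ.filter fun i => (a i).1 = true).card (fun i => if (a i).2 then 1 else 0) =
      x * (7 / 8) + x ^ 2 * (1 / 4) - x ^ 3 + x ^ 4 * (1 / 2) := by
  have p1 : prb x (true, true) = x := by
    simp only [prb, if_true]
    rw [min_eq_left hx]
  have p2 : prb x (true, false) = 1 / 2 - x := by
    simp only [prb, if_true, Bool.false_eq_true, if_false]
    rw [min_eq_left hx]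
  have p3 : prb x (false, true) = 0 := by
    simp only [prb, if_true, Bool.false_eq_true, if_false]
    rw [max_eq_right (by linarith)]
  have p4 : prb x (false, false) = 1 / 2 := by
    simp only [prb, Bool.false_eq_true, if_false]
    rw [max_eq_right (by linarith), sub_zero]
  rw [sum4]
  simp only [card4, lam_eq, Fin.prod_univ_four, Matrix.cons_val, Fintype.sum_prod_type,
    Fintype.sum_bool, p1, p2, p3, p4, if_true, Bool.false_eq_true, if_false, zero_mul, mul_zero,
    add_zero, zero_add]
  norm_num [lm]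
  ring

theorem val_high (x : ℝ) (hx : 1 / 2 ≤ x) :
    ∑ a : Fin 4 → Bool × Bool, (∏ i, prb x (a i)) *
      lam (Finset.univ.filter fun i => (a i).1 = true).card (fun i => if (a i).2 then 1 else 0) =
      -5 / 32 + x ^ 2 * 4 - x ^ 3 * 4 + x ^ 4 := by
  have p1 : prb x (true, true) = 1 / 2 := by
    simp only [prb, if_true]
    rw [min_eq_right hx]
  have p2 : prb x (true, false) = 0 := by
    simp only [prb, if_true, Bool.false_eq_true, if_false]
    rw [min_eq_right hx, sub_self]
  have p3 : prb x (false, true) = x - 1 / 2 := by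
    simp only [prb, if_true, Bool.false_eq_true, if_false]
    rw [max_eq_left (by linarith)]
  have p4 : prb x (false, false) = 1 - x := by
    simp only [prb, Bool.false_eq_true, if_false]
    rw [max_eq_left (by linarith)]
    ring
  rw [sum4]
  simp only [card4, lam_eq, Fin.prod_univ_four, Matrix.cons_val, Fintype.sum_prod_type,
    Fintype.sum_bool, p1, p2, p3, p4, if_true, Bool.false_eq_true, if_false, zero_mul, mul_zero,
    add_zero, zero_add]
  norm_num [lm]
  ring

theorem t_D2 : P_D2 := by
  intro x hx0 hx1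
  rcases le_total x (1 / 2) with hx | hx
  · rw [val_low x hx]
    have h1 : 0 ≤ 95 / 1000 - x / 4 + x ^ 2 - x ^ 3 / 2 := by
      have h2 : 0 ≤ x ^ 2 * (1 / 2 - x) := mul_nonneg (sq_nonneg x) (by linarith)
      nlinarith [sq_nonneg (x - 1 / 6)]
    have h3 := mul_nonneg hx0 h1
    nlinarith
  · rw [val_high x hx]
    have h1 : 0 ≤ -x ^ 2 + 2517 / 1000 * x + 2825 / 10000 := by nlinarith
    have h2 := mul_nonneg (sq_nonneg (x - 7415 / 10000)) h1
    nlinarith

end Pool.Agent.Q291.HEA
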