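import Pool.Agent.Q48.HEA.Med
import Pool.Agent.Q48.HEA.D2

/-!
# Project HEA, job D3
-/

set_option autoImplicit false

namespace Pool.Agent.Q291.HEA

open MeasureTheory Filter Topology Set

namespace DB

/-- the space of four couplings -/
abbrev Z : Type := (ℝ × ℝ) × (ℝ × ℝ)

noncomputable def gz (z : Z) : ℝ := min |z.1.1 + z.1.2| |z.2.1 + z.2.2|

noncomputable def mm (y1 y2 y3 y4 : ℝ) : ℝ :=
  (min (y1 + y2) (y3 + y4) + min (y1 + y2) |y3 - y4| + min |y1 - y2| (y3 + y4) +
    min |y1 - y2| |y3 - y4|) / 4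

theorem gz_meas : Measurable gz := by
  unfold gz
  exact Measurable.min (by fun_prop) (by fun_prop)

theorem stepA (ν : Measure ℝ) [IsProbabilityMeasure ν] :
    ∫⁻ x, ‖x‖ₑ ∂(ser F (par ν 2)) ≤
      ∫⁻ z, ENNReal.ofReal (gz z) ∂((ν.prod ν).prod (ν.prod ν)) := by
  have := par_two_prob ν
  unfold ser
  rw [lintegral_map (by fun_prop) F_meas, par_two]
  have h1 : (Measure.conv ν ν).prod (Measure.conv ν ν) = ((ν.prod ν).prod (ν.prod ν)).map
      (Prod.map (fun x : ℝ × ℝ => x.1 + x.2) (fun x : ℝ × ℝ => x.1 + x.2)) := by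
    unfold Measure.conv
    rw [Measure.map_prod_map _ _ (by fun_prop) (by fun_prop)]
  rw [h1, lintegral_map F_meas.enorm (by fun_prop)]
  apply lintegral_mono
  intro z
  simp only
  rw [← ofReal_norm]
  apply ENNReal.ofReal_le_ofReal
  exact le_min (F_abs_le_left _ _) (F_abs_le_right _ _)

theorem pm_abs (a b : ℝ) : (|a + b| = |a| + |b| ∧ |a + -b| = |(|a| - |b|)|) ∨
    (|a + b| = |(|a| - |b|)| ∧ |a + -b| = |a| + |b|) := by
  rcases le_total 0 a with ha | ha <;> rcases le_total 0 b with hb | hb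
  · left
    rw [abs_of_nonneg ha, abs_of_nonneg hb, abs_of_nonneg (by linarith)]
    exact ⟨rfl, by rw [sub_eq_add_neg]⟩
  · right
    rw [abs_of_nonneg ha, abs_of_nonpos hb, sub_neg_eq_add, abs_of_nonneg (by linarith : 0 ≤ a + -b)]
    exact ⟨rfl, rfl⟩
  · right
    rw [abs_of_nonpos ha, abs_of_nonneg hb, abs_of_nonpos (by linarith : a + -b ≤ 0)]
    constructor
    · rw [← abs_neg (a + b)]; congr 1; ring
    · ring
  · left
    rw [abs_of_nonpos ha, abs_of_nonpos hb, abs_of_nonpos (by linarith : a + b ≤ 0)]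
    constructor
    · ring
    · rw [← abs_neg (a + -b)]; congr 1; ring

/-- the sign flips -/
noncomputable def f1 : Z → Z := Prod.map (Prod.map id (fun x : ℝ => -x)) id
noncomputable def f2 : Z → Z := Prod.map id (Prod.map id (fun x : ℝ => -x))

theorem flip_sum (z : Z) : gz z + gz (f1 z) + gz (f2 z) + gz (f1 (f2 z)) =
    4 * mm |z.1.1| |z.1.2| |z.2.1| |z.2.2| := by
  obtain ⟨⟨a, b⟩, ⟨c, d⟩⟩ := z
  simp only [gz, f1, f2, mm, Prod.map, id]
  rcases pm_abs a b with ⟨h1, h2⟩ | ⟨h1, h2⟩ <;> rcases pm_abs c d with ⟨h3, h4⟩ | ⟨h3, h4⟩ <;>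
    (rw [h1, h2, h3, h4]; ring)

theorem stepB (ν : Measure ℝ) [IsProbabilityMeasure ν] (hs : Sym ν) :
    ∫⁻ z, ENNReal.ofReal (gz z) ∂((ν.prod ν).prod (ν.prod ν)) =
      ∫⁻ z : Z, ENNReal.ofReal (mm |z.1.1| |z.1.2| |z.2.1| |z.2.2|)
        ∂((ν.prod ν).prod (ν.prod ν)) := by
  set P := (ν.prod ν).prod (ν.prod ν) with hP
  have hneg : MeasurePreserving (fun x : ℝ => -x) ν ν := ⟨measurable_neg, hs⟩
  have hf1 : MeasurePreserving f1 P P :=
    ((MeasurePreserving.id ν).prod hneg).prod (MeasurePreserving.id (ν.prod ν))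
  have hf2 : MeasurePreserving f2 P P :=
    (MeasurePreserving.id (ν.prod ν)).prod ((MeasurePreserving.id ν).prod hneg)
  have hG : Measurable fun z : Z => ENNReal.ofReal (gz z) := gz_meas.ennreal_ofReal
  have e1 := hf1.lintegral_comp hG
  have e2 := hf2.lintegral_comp hG
  have e3 : ∫⁻ z, ENNReal.ofReal (gz (f1 (f2 z))) ∂P = ∫⁻ z, ENNReal.ofReal (gz z) ∂P := by
    rw [← e1]
    exact hf2.lintegral_comp (hG.comp hf1.measurable)
  have hgz0 : ∀ z, 0 ≤ gz z := fun z => le_min (abs_nonneg _) (abs_nonneg _)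
  have h4 : ∀ z : Z, (4 : ENNReal) * ENNReal.ofReal (mm |z.1.1| |z.1.2| |z.2.1| |z.2.2|) =
      ENNReal.ofReal (gz z) + ENNReal.ofReal (gz (f1 z)) + ENNReal.ofReal (gz (f2 z)) +
        ENNReal.ofReal (gz (f1 (f2 z))) := by
    intro z
    rw [← ENNReal.ofReal_add (hgz0 _) (hgz0 _), ← ENNReal.ofReal_add
      (add_nonneg (hgz0 _) (hgz0 _)) (hgz0 _), ← ENNReal.ofReal_add
      (add_nonneg (add_nonneg (hgz0 _) (hgz0 _)) (hgz0 _)) (hgz0 _), flip_sum z,
      ENNReal.ofReal_mul (by norm_num)]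
    congr 1
    norm_num
  have h5 : (4 : ENNReal) * ∫⁻ z : Z, ENNReal.ofReal (mm |z.1.1| |z.1.2| |z.2.1| |z.2.2|) ∂P =
      4 * ∫⁻ z, ENNReal.ofReal (gz z) ∂P := by
    rw [← lintegral_const_mul' _ _ (by simp)]
    simp_rw [h4]
    have m1 : Measurable fun z : Z => ENNReal.ofReal (gz z) + ENNReal.ofReal (gz (f1 z)) :=
      hG.add (hG.comp hf1.measurable)
    have m2 : Measurable fun z : Z => ENNReal.ofReal (gz z) + ENNReal.ofReal (gz (f1 z)) +
        ENNReal.ofReal (gz (f2 z)) := m1.add (hG.comp hf2.measurable)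
    rw [lintegral_add_left m2, lintegral_add_left m1, lintegral_add_left hG, e1, e2, e3]
    ring
  have h6 := (ENNReal.mul_right_inj (by simp) (by simp)).1 h5
  exact h6.symm

/-! ### the layer formula -/

/-- indicators of levels -/
noncomputable def ind (c t : ℝ) : ℝ := if t < c then 1 else 0

theorem ind_max (c d t : ℝ) : max (ind c t) (ind d t) = ind (max c d) t := by
  unfold ind
  by_cases h1 : t < c <;> by_cases h2 : t < d <;> simp [h1, h2]

theorem ind_min (c d t : ℝ) : min (ind c t) (ind d t) = ind (min c d) t := by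
  unfold ind
  by_cases h1 : t < c <;> by_cases h2 : t < d <;> simp [h1, h2]

theorem ind_int (c : ℝ) (hc : 0 ≤ c) : IntegrableOn (ind c) (Ioi 0) ∧
    ∫ t in Ioi (0 : ℝ), ind c t = c := by
  have h1 : ind c = (Iio c).indicator fun _ => (1 : ℝ) := by
    ext t
    unfold ind
    rw [indicator_apply]
    rfl
  have h2 : (volume.restrict (Ioi (0 : ℝ))) (Iio c) = ENNReal.ofReal c := by
    rw [Measure.restrict_apply measurableSet_Iio]
    have : Iio c ∩ Ioi (0 : ℝ) = Ioo 0 c := by
      ext t; simp only [mem_inter_iff, mem_Iio, mem_Ioi, mem_Ioo]; tauto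
    rw [this, Real.volume_Ioo, sub_zero]
  constructor
  · rw [h1]
    unfold IntegrableOn
    rw [integrable_indicator_iff measurableSet_Iio]
    refine integrableOn_const ?_
    rw [h2]
    exact ENNReal.ofReal_ne_top
  · rw [h1, integral_indicator_const _ measurableSet_Iio, Measure.real, h2,
      ENNReal.toReal_ofReal hc, smul_eq_mul, mul_one]

theorem comb (n : ℕ) (k c : Fin n → ℝ) (hc : ∀ j, 0 ≤ c j) :
    IntegrableOn (fun t => ∑ j, k j * ind (c j) t) (Ioi 0) ∧
    ∫ t in Ioi (0 : ℝ), ∑ j, k j * ind (c j) t = ∑ j, k j * c j := by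
  have h1 : ∀ j ∈ Finset.univ, Integrable (fun t => k j * ind (c j) t)
      (volume.restrict (Ioi (0 : ℝ))) := fun j _ => (ind_int (c j) (hc j)).1.const_mul _
  refine ⟨integrable_finsetSum _ h1, ?_⟩
  rw [integral_finsetSum _ h1]
  refine Finset.sum_congr rfl fun j _ => ?_
  rw [integral_const_mul, (ind_int (c j) (hc j)).2]

theorem lam_nonneg (h : ℕ) (y : Fin 4 → ℝ) (hy : ∀ i, 0 ≤ y i) : 0 ≤ lam h y := by
  have a1 := le_max_left (y 0) (y 1)
  have a2 := le_max_left (y 2) (y 3)
  have a3 := min_le_max (a := y 0) (b := y 1)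
  have a4 := min_le_max (a := y 2) (b := y 3)
  have h0 := hy 0
  have h2 := hy 2
  have a0 : 0 ≤ max (y 0) (y 1) := h0.trans a1
  have b0 : 0 ≤ max (y 2) (y 3) := h2.trans a2
  unfold lam
  split_ifs
  · have h3 : |max (y 0) (y 1) - max (y 2) (y 3)| ≤ max (y 0) (y 1) + max (y 2) (y 3) := by
      rw [abs_le]; constructor <;> linarith
    linarith
  · have h3 : max (min (y 0) (y 1)) (min (y 2) (y 3)) ≤ max (y 0) (y 1) + max (y 2) (y 3) :=
      max_le (by linarith) (by linarith)
    linarith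
  · exact le_min a0 b0

theorem abs_eq_max (a b : ℝ) : |a - b| = 2 * max a b - a - b := by
  rcases le_total a b with h | h
  · rw [abs_of_nonpos (by linarith), max_eq_right h]; ring
  · rw [abs_of_nonneg (by linarith), max_eq_left h]; ring

theorem lam_layer (h : ℕ) (y : Fin 4 → ℝ) (hy : ∀ i, 0 ≤ y i) :
    IntegrableOn (fun t => lam h (fun i => ind (y i) t)) (Ioi 0) ∧
    ∫ t in Ioi (0 : ℝ), lam h (fun i => ind (y i) t) = lam h y := by
  have a0 : 0 ≤ max (y 0) (y 1) := (hy 0).trans (le_max_left _ _)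
  have b0 : 0 ≤ max (y 2) (y 3) := (hy 2).trans (le_max_left _ _)
  have c0 : 0 ≤ min (y 0) (y 1) := le_min (hy 0) (hy 1)
  have d0 : 0 ≤ min (y 2) (y 3) := le_min (hy 2) (hy 3)
  by_cases h4 : h = 4
  · have h1 := comb 5 ![3 / 4, 3 / 4, -1 / 2, -1 / 4, -1 / 4]
      ![max (y 0) (y 1), max (y 2) (y 3), max (max (y 0) (y 1)) (max (y 2) (y 3)),
        min (y 0) (y 1), min (y 2) (y 3)] (by
        intro j
        fin_cases j
        · exact a0
        · exact b0
        · exact a0.trans (le_max_left _ _)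
        · exact c0
        · exact d0)
    have h2 : ∀ t, lam h (fun i => ind (y i) t) = ∑ j : Fin 5,
        (![3 / 4, 3 / 4, -1 / 2, -1 / 4, -1 / 4] : Fin 5 → ℝ) j *
        ind ((![max (y 0) (y 1), max (y 2) (y 3), max (max (y 0) (y 1)) (max (y 2) (y 3)),
        min (y 0) (y 1), min (y 2) (y 3)] : Fin 5 → ℝ) j) t := by
      intro t
      unfold lam
      rw [if_pos h4, Fin.sum_univ_five]
      simp only [Matrix.cons_val, abs_eq_max, ind_max, ind_min]
      ring
    simp_rw [h2]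
    refine ⟨h1.1, h1.2.trans ?_⟩
    unfold lam
    rw [if_pos h4, Fin.sum_univ_five, abs_eq_max]
    simp only [Matrix.cons_val]
    ring
  · by_cases h3 : h = 3
    · have h1 := comb 3 ![1 / 2, 1 / 2, -1 / 2]
        ![max (y 0) (y 1), max (y 2) (y 3), max (min (y 0) (y 1)) (min (y 2) (y 3))] (by
          intro j
          fin_cases j
          · exact a0
          · exact b0
          · exact c0.trans (le_max_left _ _))
      have h2 : ∀ t, lam h (fun i => ind (y i) t) = ∑ j : Fin 3,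
          (![1 / 2, 1 / 2, -1 / 2] : Fin 3 → ℝ) j *
          ind ((![max (y 0) (y 1), max (y 2) (y 3),
            max (min (y 0) (y 1)) (min (y 2) (y 3))] : Fin 3 → ℝ) j) t := by
        intro t
        unfold lam
        rw [if_neg h4, if_pos h3, Fin.sum_univ_three]
        simp only [Matrix.cons_val, ind_max, ind_min]
        ring
      simp_rw [h2]
      refine ⟨h1.1, h1.2.trans ?_⟩
      unfold lam
      rw [if_neg h4, if_pos h3, Fin.sum_univ_three]
      simp only [Matrix.cons_val]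
      ring
    · have h2 : ∀ t, lam h (fun i => ind (y i) t) = ind (min (max (y 0) (y 1)) (max (y 2) (y 3))) t := by
        intro t
        unfold lam
        rw [if_neg h4, if_neg h3, ind_max, ind_max, ind_min]
      simp_rw [h2]
      have h5 := ind_int (min (max (y 0) (y 1)) (max (y 2) (y 3))) (le_min a0 b0)
      refine ⟨h5.1, h5.2.trans ?_⟩
      unfold lam
      rw [if_neg h4, if_neg h3]

/-! ### the weights -/

/-- the four points -/
def zz (z : Z) : Fin 4 → ℝ := ![z.1.1, z.1.2, z.2.1, z.2.2]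

/-- the weight of one variable -/
noncomputable def wb (h : ℝ → ℝ) (b : Bool) (x : ℝ) : ℝ := if b then h x else 1 - h x

open Classical in
/-- weight and level of one variable -/
noncomputable def V (h : ℝ → ℝ) (a : Bool × Bool) (x t : ℝ) : ℝ :=
  wb h a.1 x * (if (a.2 = true ↔ t < |x|) then 1 else 0)

/-- the values of the linear forms -/
noncomputable def LL (a : Fin 4 → Bool × Bool) : ℝ :=
  lam (Finset.univ.filter fun i => (a i).1 = true).card (fun i => if (a i).2 then 1 else 0)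

noncomputable def Phi1 (h : ℝ → ℝ) (z : Z) (t : ℝ) : ℝ :=
  ∑ a : Fin 4 → Bool × Bool, (∏ i, V h (a i) (zz z i) t) * LL a

noncomputable def Phi2 (h : ℝ → ℝ) (z : Z) (t : ℝ) : ℝ :=
  ∑ b : Fin 4 → Bool, (∏ i, wb h (b i) (zz z i)) *
    lam (Finset.univ.filter fun i => b i = true).card (fun i => ind |zz z i| t)

theorem Phi_eq (h : ℝ → ℝ) (z : Z) (t : ℝ) : Phi1 h z t = Phi2 h z t := by
  classical
  unfold Phi1 Phi2
  symm
  apply Fintype.sum_of_injective
    (fun (b : Fin 4 → Bool) (i : Fin 4) => ((b i, decide (t < |zz z i|)) : Bool × Bool))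
  · intro b b' hbb
    ext i
    have := congrFun hbb i
    simp only [Prod.mk.injEq] at this
    rw [this.1]
  · intro a ha
    have hex : ∃ i, ¬ ((a i).2 = true ↔ t < |zz z i|) := by
      by_contra hcon
      push Not at hcon
      apply ha
      refine ⟨fun i => (a i).1, ?_⟩
      ext i
      · rfl
      · have := hcon i
        simp only
        by_cases h1 : t < |zz z i|
        · have h2 := this.mpr h1
          rw [h2]
          simp [h1]
        · have h2 : (a i).2 = false := by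
            by_contra h3
            exact h1 (this.mp (by simpa using h3))
          rw [h2]
          simp [h1]
    obtain ⟨i, hi⟩ := hex
    have h0 : V h (a i) (zz z i) t = 0 := by
      unfold V
      rw [if_neg hi, mul_zero]
    rw [Finset.prod_eq_zero (Finset.mem_univ i) h0, zero_mul]
  · intro b
    congr 1
    · refine Finset.prod_congr rfl fun i _ => ?_
      unfold V
      rw [if_pos (by simp), mul_one]
    · unfold LL
      congr 1
      ext i
      unfold ind
      by_cases h1 : t < |zz z i|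
      · simp [h1]
      · simp [h1]

theorem wb_nonneg {h : ℝ → ℝ} (hh : ∀ x, 0 ≤ h x ∧ h x ≤ 1) (b : Bool) (x : ℝ) : 0 ≤ wb h b x := by
  unfold wb
  split_ifs
  · exact (hh x).1
  · linarith [(hh x).2]

theorem wb_le {h : ℝ → ℝ} (hh : ∀ x, 0 ≤ h x ∧ h x ≤ 1) (b : Bool) (x : ℝ) : wb h b x ≤ 1 := by
  unfold wb
  split_ifs
  · exact (hh x).2
  · linarith [(hh x).1]

theorem wb_meas {h : ℝ → ℝ} (hm : Measurable h) (b : Bool) : Measurable (wb h b) := by
  cases b
  · have : wb h false = fun x => 1 - h x := by ext x; simp [wb]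
    rw [this]
    exact measurable_const.sub hm
  · have : wb h true = h := by ext x; simp [wb]
    rw [this]
    exact hm

theorem wb_sum (h : ℝ → ℝ) (z : Z) : ∑ b : Fin 4 → Bool, ∏ i, wb h (b i) (zz z i) = 1 := by
  have h1 := (Finset.prod_univ_sum (fun _ : Fin 4 => (Finset.univ : Finset Bool))
    (fun i b => wb h b (zz z i))).symm
  rw [Fintype.piFinset_univ] at h1
  rw [h1]
  refine Finset.prod_eq_one fun i _ => ?_
  rw [Fintype.sum_bool]
  unfold wb
  simp

theorem zz_nonneg (z : Z) (i : Fin 4) : 0 ≤ |zz z i| := abs_nonneg _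

/-- integration over the levels -/
theorem stepD (hD1 : P_D1) {h : ℝ → ℝ} (hh : ∀ x, 0 ≤ h x ∧ h x ≤ 1) (z : Z) :
    ENNReal.ofReal (mm |z.1.1| |z.1.2| |z.2.1| |z.2.2|) ≤
      ∫⁻ t in Ioi (0 : ℝ), ENNReal.ofReal (Phi2 h z t) := by
  have hi : ∀ b ∈ (Finset.univ : Finset (Fin 4 → Bool)),
      Integrable (fun t => (∏ i, wb h (b i) (zz z i)) *
        lam (Finset.univ.filter fun i => b i = true).card (fun i => ind |zz z i| t))
        (volume.restrict (Ioi (0 : ℝ))) := fun b _ =>
    (lam_layer _ (fun i => |zz z i|) (zz_nonneg z)).1.const_mul _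
  have hint : Integrable (fun t => Phi2 h z t) (volume.restrict (Ioi (0 : ℝ))) :=
    integrable_finsetSum _ hi
  have hnn : ∀ t, 0 ≤ Phi2 h z t := by
    intro t
    refine Finset.sum_nonneg fun b _ => mul_nonneg (Finset.prod_nonneg fun i _ => wb_nonneg hh _ _)
      (lam_nonneg _ _ fun i => ?_)
    unfold ind
    split_ifs <;> norm_num
  rw [← ofReal_integral_eq_lintegral_ofReal hint (Eventually.of_forall hnn)]
  apply ENNReal.ofReal_le_ofReal
  have hval : ∫ t in Ioi (0 : ℝ), Phi2 h z t = ∑ b : Fin 4 → Bool, (∏ i, wb h (b i) (zz z i)) *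
      lam (Finset.univ.filter fun i => b i = true).card (fun i => |zz z i|) := by
    unfold Phi2
    rw [integral_finsetSum _ hi]
    refine Finset.sum_congr rfl fun b _ => ?_
    rw [integral_const_mul, (lam_layer _ (fun i => |zz z i|) (zz_nonneg z)).2]
  rw [hval]
  have hle : ∀ n : ℕ, mm |z.1.1| |z.1.2| |z.2.1| |z.2.2| ≤ lam n (fun i => |zz z i|) := by
    intro n
    obtain ⟨h1, h2, h3⟩ := hD1 |z.1.1| |z.1.2| |z.2.1| |z.2.2| (abs_nonneg _) (abs_nonneg _)
      (abs_nonneg _) (abs_nonneg _)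
    unfold lam
    split_ifs
    · exact h3
    · exact h2
    · exact h1
  calc mm |z.1.1| |z.1.2| |z.2.1| |z.2.2| =
      ∑ b : Fin 4 → Bool, (∏ i, wb h (b i) (zz z i)) * mm |z.1.1| |z.1.2| |z.2.1| |z.2.2| := by
        rw [← Finset.sum_mul, wb_sum, one_mul]
    _ ≤ _ := Finset.sum_le_sum fun b _ =>
        mul_le_mul_of_nonneg_left (hle _) (Finset.prod_nonneg fun i _ => wb_nonneg hh _ _)

/-! ### integration over the couplings -/

theorem V_eq (h : ℝ → ℝ) (a : Bool × Bool) (x t : ℝ) :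
    V h a x t = wb h a.1 x * (if a.2 then ind |x| t else 1 - ind |x| t) := by
  unfold V ind
  by_cases h1 : t < |x| <;> cases h2 : a.2 <;> simp [h1]

theorem V_meas2 {h : ℝ → ℝ} (hm : Measurable h) (a : Bool × Bool) :
    Measurable fun p : ℝ × ℝ => V h a p.1 p.2 := by
  have h1 : Measurable fun p : ℝ × ℝ => ind |p.1| p.2 := by
    unfold ind
    exact Measurable.ite (measurableSet_lt (by fun_prop) (by fun_prop)) measurable_const
      measurable_const
  simp_rw [V_eq]
  refine ((wb_meas hm a.1).comp measurable_fst).mul ?_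
  cases a.2
  · have h2 : Measurable fun p : ℝ × ℝ => 1 - ind |p.1| p.2 := measurable_const.sub h1
    simpa using h2
  · simpa using h1

theorem V_nonneg {h : ℝ → ℝ} (hh : ∀ x, 0 ≤ h x ∧ h x ≤ 1) (a : Bool × Bool) (x t : ℝ) :
    0 ≤ V h a x t := by
  unfold V
  refine mul_nonneg (wb_nonneg hh _ _) ?_
  split_ifs <;> norm_num

theorem V_le {h : ℝ → ℝ} (hh : ∀ x, 0 ≤ h x ∧ h x ≤ 1) (a : Bool × Bool) (x t : ℝ) :
    V h a x t ≤ 1 := by
  unfold V
  have h1 := wb_le hh a.1 x
  have h2 := wb_nonneg hh a.1 x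
  split_ifs <;> linarith

theorem V_int (ν : Measure ℝ) [IsProbabilityMeasure ν] {h : ℝ → ℝ} (hm : Measurable h)
    (hh : ∀ x, 0 ≤ h x ∧ h x ≤ 1) (h1 : ∫ x, h x ∂ν = 1 / 2)
    (h2 : ∀ t, 0 ≤ t → ∫ x, h x * (if t < |x| then 1 else 0) ∂ν = min (tl ν t) (1 / 2))
    (a : Bool × Bool) (t : ℝ) (ht : 0 ≤ t) : ∫ x, V h a x t ∂ν = prb (tl ν t) a := by
  have ih : Integrable h ν := Integrable.of_bound hm.aestronglyMeasurable 1
    (Eventually.of_forall fun x => by
      rw [Real.norm_eq_abs, abs_of_nonneg (hh x).1]; exact (hh x).2)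
  have mI : Measurable fun x : ℝ => ind |x| t := by
    unfold ind
    exact Measurable.ite (measurableSet_lt measurable_const (by fun_prop)) measurable_const
      measurable_const
  have iI : Integrable (fun x : ℝ => ind |x| t) ν := Integrable.of_bound mI.aestronglyMeasurable 1
    (Eventually.of_forall fun x => by unfold ind; split_ifs <;> simp)
  have ihI : Integrable (fun x : ℝ => h x * ind |x| t) ν :=
    Integrable.of_bound (hm.mul mI).aestronglyMeasurable 1 (Eventually.of_forall fun x => by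
      unfold ind
      split_ifs
      · rw [mul_one, Real.norm_eq_abs, abs_of_nonneg (hh x).1]; exact (hh x).2
      · simp)
  have e1 : ∫ x, ind |x| t ∂ν = tl ν t := by
    have : (fun x : ℝ => ind |x| t) = {x : ℝ | t < |x|}.indicator (fun _ => (1 : ℝ)) := by
      ext x
      unfold ind
      rw [indicator_apply]
      rfl
    rw [this, integral_indicator_const _ (tl_meas_set t), smul_eq_mul, mul_one]
    rfl
  have e2 : ∫ x, h x * ind |x| t ∂ν = min (tl ν t) (1 / 2) := h2 t ht
  have e3 : min (tl ν t) (1 / 2) + max (tl ν t - 1 / 2) 0 = tl ν t := by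
    rcases le_total (tl ν t) (1 / 2) with h3 | h3
    · rw [min_eq_left h3, max_eq_right (by linarith)]; ring
    · rw [min_eq_right h3, max_eq_left (by linarith)]; ring
  simp_rw [V_eq]
  obtain ⟨a1, a2⟩ := a
  cases a1 <;> cases a2 <;> simp only [wb, prb, if_true, Bool.false_eq_true, if_false]
  · have : ∀ x, (1 - h x) * (1 - ind |x| t) = 1 - h x - (ind |x| t - h x * ind |x| t) := by
      intro x; ring
    simp_rw [this]
    have i1 : Integrable (fun x : ℝ => 1 - h x) ν := (integrable_const 1).sub ih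
    have i2 : Integrable (fun x : ℝ => ind |x| t - h x * ind |x| t) ν := iI.sub ihI
    rw [integral_sub i1 i2, integral_sub (integrable_const 1) ih, integral_sub iI ihI, e1, e2, h1]
    simp
    linarith
  · have : ∀ x, (1 - h x) * ind |x| t = ind |x| t - h x * ind |x| t := by intro x; ring
    simp_rw [this]
    rw [integral_sub iI ihI, e1, e2]
    linarith
  · have : ∀ x, h x * (1 - ind |x| t) = h x - h x * ind |x| t := by intro x; ring
    simp_rw [this]
    rw [integral_sub ih ihI, e2, h1]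
  · exact e2

theorem zz_meas (i : Fin 4) : Measurable fun z : Z => zz z i := by
  fin_cases i
  · exact measurable_fst.comp measurable_fst
  · exact measurable_snd.comp measurable_fst
  · exact measurable_fst.comp measurable_snd
  · exact measurable_snd.comp measurable_snd

theorem Phi1_meas {h : ℝ → ℝ} (hm : Measurable h) :
    Measurable fun p : Z × ℝ => Phi1 h p.1 p.2 := by
  unfold Phi1
  refine Finset.measurable_sum _ fun a _ => ?_
  refine Measurable.mul_const ?_ _
  refine Finset.measurable_prod _ fun i _ => ?_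
  exact (V_meas2 hm (a i)).comp (((zz_meas i).comp measurable_fst).prodMk measurable_snd)

theorem stepF (ν : Measure ℝ) [IsProbabilityMeasure ν] (hD2 : P_D2) {h : ℝ → ℝ}
    (hm : Measurable h) (hh : ∀ x, 0 ≤ h x ∧ h x ≤ 1) (h1 : ∫ x, h x ∂ν = 1 / 2)
    (h2 : ∀ t, 0 ≤ t → ∫ x, h x * (if t < |x| then 1 else 0) ∂ν = min (tl ν t) (1 / 2))
    (t : ℝ) (ht : 0 ≤ t) :
    ∫⁻ z, ENNReal.ofReal (Phi1 h z t) ∂((ν.prod ν).prod (ν.prod ν)) ≤
      ENNReal.ofReal (97 / 100 * tl ν t) := by
  have hmz : ∀ a : Fin 4 → Bool × Bool, Measurable fun z : Z => ∏ i, V h (a i) (zz z i) t :=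
    fun a => Finset.measurable_prod _ fun i _ =>
      (V_meas2 hm (a i)).comp ((zz_meas i).prodMk measurable_const)
  have hi : ∀ a ∈ (Finset.univ : Finset (Fin 4 → Bool × Bool)),
      Integrable (fun z : Z => (∏ i, V h (a i) (zz z i) t) * LL a)
        ((ν.prod ν).prod (ν.prod ν)) := by
    intro a _
    refine Integrable.mul_const ?_ _
    refine Integrable.of_bound (hmz a).aestronglyMeasurable 1 (Eventually.of_forall fun z => ?_)
    rw [Real.norm_eq_abs, abs_of_nonneg (Finset.prod_nonneg fun i _ => V_nonneg hh _ _ _)]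
    exact Finset.prod_le_one (fun i _ => V_nonneg hh _ _ _) fun i _ => V_le hh _ _ _
  have hint : Integrable (fun z : Z => Phi1 h z t) ((ν.prod ν).prod (ν.prod ν)) :=
    integrable_finsetSum _ hi
  have hnn : ∀ z, 0 ≤ Phi1 h z t := by
    intro z
    refine Finset.sum_nonneg fun a _ => mul_nonneg (Finset.prod_nonneg fun i _ => V_nonneg hh _ _ _)
      (lam_nonneg _ _ fun i => ?_)
    split_ifs <;> norm_num
  rw [← ofReal_integral_eq_lintegral_ofReal hint (Eventually.of_forall hnn)]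
  apply ENNReal.ofReal_le_ofReal
  have hval : ∫ z, Phi1 h z t ∂((ν.prod ν).prod (ν.prod ν)) =
      ∑ a : Fin 4 → Bool × Bool, (∏ i, prb (tl ν t) (a i)) * LL a := by
    unfold Phi1
    rw [integral_finsetSum _ hi]
    refine Finset.sum_congr rfl fun a _ => ?_
    rw [integral_mul_const]
    congr 1
    rw [Fin.prod_univ_four]
    have e1 : ∀ z : Z, ∏ i, V h (a i) (zz z i) t =
        (V h (a 0) z.1.1 t * V h (a 1) z.1.2 t) * (V h (a 2) z.2.1 t * V h (a 3) z.2.2 t) := by
      intro z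
      rw [Fin.prod_univ_four]
      simp only [zz, Matrix.cons_val]
      ring
    simp_rw [e1]
    rw [integral_prod_mul (μ := ν.prod ν) (ν := ν.prod ν)
      (fun w : ℝ × ℝ => V h (a 0) w.1 t * V h (a 1) w.2 t)
      (fun w : ℝ × ℝ => V h (a 2) w.1 t * V h (a 3) w.2 t),
      integral_prod_mul (μ := ν) (ν := ν) (fun x => V h (a 0) x t) (fun x => V h (a 1) x t),
      integral_prod_mul (μ := ν) (ν := ν) (fun x => V h (a 2) x t) (fun x => V h (a 3) x t),
      V_int ν hm hh h1 h2 _ t ht, V_int ν hm hh h1 h2 _ t ht, V_int ν hm hh h1 h2 _ t ht,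
      V_int ν hm hh h1 h2 _ t ht]
    ring
  rw [hval]
  exact hD2 (tl ν t) measureReal_nonneg measureReal_le_one

end DB

open DB in
theorem t_D3 : P_D1 → P_D2 → P_D3 := by
  intro hD1 hD2 ν _ hs hint
  obtain ⟨h, hm, hh, h1, h2⟩ := exists_weight ν hint
  have hlt : ∫⁻ x, ‖x‖ₑ ∂ν < ⊤ := (int_iff ν).1 hint
  have key : ∫⁻ x, ‖x‖ₑ ∂(ser F (par ν 2)) ≤ ENNReal.ofReal (97 / 100) * ∫⁻ x, ‖x‖ₑ ∂ν := by
    have hnu : ∫⁻ x, ‖x‖ₑ ∂ν = ∫⁻ t in Ioi (0 : ℝ), ν {x : ℝ | t < |x|} := by
      rw [← lintegral_eq_lintegral_meas_lt ν (Eventually.of_forall fun x => abs_nonneg x)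
        (by fun_prop)]
      apply lintegral_congr
      intro x
      rw [← ofReal_norm, Real.norm_eq_abs]
    calc ∫⁻ x, ‖x‖ₑ ∂(ser F (par ν 2))
        ≤ ∫⁻ z, ENNReal.ofReal (gz z) ∂((ν.prod ν).prod (ν.prod ν)) := stepA ν
      _ = ∫⁻ z : Z, ENNReal.ofReal (mm |z.1.1| |z.1.2| |z.2.1| |z.2.2|)
            ∂((ν.prod ν).prod (ν.prod ν)) := stepB ν hs
      _ ≤ ∫⁻ z : Z, (∫⁻ t in Ioi (0 : ℝ), ENNReal.ofReal (Phi1 h z t))
            ∂((ν.prod ν).prod (ν.prod ν)) := by
          apply lintegral_mono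
          intro z
          simp only [Phi_eq]
          exact stepD hD1 hh z
      _ = ∫⁻ t in Ioi (0 : ℝ), (∫⁻ z : Z, ENNReal.ofReal (Phi1 h z t)
            ∂((ν.prod ν).prod (ν.prod ν))) := by
          apply lintegral_lintegral_swap
          exact (Phi1_meas hm).ennreal_ofReal.aemeasurable
      _ ≤ ∫⁻ t in Ioi (0 : ℝ), ENNReal.ofReal (97 / 100) * ν {x : ℝ | t < |x|} := by
          apply setLIntegral_mono' measurableSet_Ioi
          intro t ht
          refine (stepF ν hD2 hm hh h1 h2 t (le_of_lt ht)).trans (le_of_eq ?_)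
          rw [ENNReal.ofReal_mul (by norm_num)]
          congr 1
          unfold tl
          exact ofReal_measureReal (measure_ne_top _ _)
      _ = ENNReal.ofReal (97 / 100) * ∫⁻ x, ‖x‖ₑ ∂ν := by
          rw [lintegral_const_mul' _ _ ENNReal.ofReal_ne_top, hnu]
  have hfin : ENNReal.ofReal (97 / 100) * ∫⁻ x, ‖x‖ₑ ∂ν < ⊤ :=
    ENNReal.mul_lt_top ENNReal.ofReal_lt_top hlt
  refine ⟨(int_iff _).2 (key.trans_lt hfin), ?_⟩
  rw [abs_int, abs_int]
  calc _ ≤ (ENNReal.ofReal (97 / 100) * ∫⁻ x, ‖x‖ₑ ∂ν).toReal := ENNReal.toReal_mono hfin.ne key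
    _ = _ := by
        rw [ENNReal.toReal_mul, ENNReal.toReal_ofReal (by norm_num)]

end Pool.Agent.Q291.HEA
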