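import Pool.Agent.Q48.HEA.Base

/-!
# Project HEA, job D4
-/

set_option autoImplicit false

namespace Pool.Agent.Q291.HEA

open MeasureTheory Filter Topology Set

open DB in
theorem t_D4 : P_D3 → P_LAWS → P_D4 := by
  intro hD3 hL μ _ hsym hint
  set a : ℝ := ∫ x, |x| ∂μ with ha
  have ha0 : 0 ≤ a := integral_nonneg fun x => abs_nonneg x
  have key : ∀ n, Integrable (fun x : ℝ => x) (ser F (lawN 2 μ n)) ∧
      ∫ x, |x| ∂(ser F (lawN 2 μ n)) ≤ (97 / 100) ^ n * a := by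
    intro n
    induction n with
    | zero =>
      have hlt : ∫⁻ x, ‖x‖ₑ ∂μ < ⊤ := (int_iff μ).1 hint
      have hle := ser_lint μ
      constructor
      · rw [int_iff]
        exact hle.trans_lt hlt
      · rw [pow_zero, one_mul, ha, abs_int, abs_int]
        exact ENNReal.toReal_mono hlt.ne hle
    | succ n ih =>
      obtain ⟨hp, hs⟩ := hL 2 μ hsym n
      have hp2 := ser_prob (lawN 2 μ n)
      have hs2 := ser_sym (lawN 2 μ n) hs
      obtain ⟨h1, h2⟩ := hD3 (ser F (lawN 2 μ n)) hs2 ih.1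
      refine ⟨h1, h2.trans ?_⟩
      calc 97 / 100 * ∫ x, |x| ∂(ser F (lawN 2 μ n)) ≤ 97 / 100 * ((97 / 100) ^ n * a) := by
            have := ih.2
            linarith
        _ = (97 / 100) ^ (n + 1) * a := by ring
  intro n
  cases n with
  | zero =>
    refine ⟨hint, ?_⟩
    change ∫ x, |x| ∂μ ≤ _
    rw [pow_zero, mul_one]
    linarith
  | succ n =>
    obtain ⟨hp, hs⟩ := hL 2 μ hsym n
    have hp2 := ser_prob (lawN 2 μ n)
    obtain ⟨h1, h2⟩ := key n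
    have hlt : ∫⁻ x, ‖x‖ₑ ∂(ser F (lawN 2 μ n)) < ⊤ := (int_iff _).1 h1
    have hle := par_lint (ser F (lawN 2 μ n))
    change Integrable (fun x : ℝ => x) (par (ser F (lawN 2 μ n)) 2) ∧
      ∫ x, |x| ∂(par (ser F (lawN 2 μ n)) 2) ≤ _
    have hfin : 2 * ∫⁻ x, ‖x‖ₑ ∂(ser F (lawN 2 μ n)) < ⊤ := ENNReal.mul_lt_top (by simp) hlt
    refine ⟨(int_iff _).2 (hle.trans_lt hfin), ?_⟩
    have h3 : ∫ x, |x| ∂(par (ser F (lawN 2 μ n)) 2) ≤ 2 * ∫ x, |x| ∂(ser F (lawN 2 μ n)) := by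
      rw [abs_int, abs_int]
      calc _ ≤ (2 * ∫⁻ x, ‖x‖ₑ ∂(ser F (lawN 2 μ n))).toReal := ENNReal.toReal_mono hfin.ne hle
        _ = _ := by rw [ENNReal.toReal_mul]; simp
    have h4 : 0 ≤ (97 / 100 : ℝ) ^ n * a := by positivity
    calc _ ≤ 2 * ((97 / 100) ^ n * a) := by linarith
      _ ≤ 3 * (97 / 100) ^ (n + 1) * a := by rw [pow_succ]; nlinarith

end Pool.Agent.Q291.HEA
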