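import Pool.Agent.Q291.HEA.Stm

/-!
# Project HEA, job D1
-/

set_option autoImplicit false

namespace Pool.Agent.Q291.HEA

/-- the ordered case -/
theorem d1_core (a b c d : ℝ) (hab : b ≤ a) (hcd : d ≤ c) :
    let m := (min (a + b) (c + d) + min (a + b) (c - d) + min (a - b) (c + d) +
      min (a - b) (c - d)) / 4
    m ≤ min a c ∧ m ≤ (a + c - max b d) / 2 ∧ m ≤ (a + c) / 2 - (|a - c| + b + d) / 4 := by
  intro m
  have e1 := min_le_left (a + b) (c + d)
  have e2 := min_le_right (a + b) (c + d)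
  have e3 := min_le_left (a + b) (c - d)
  have e4 := min_le_right (a + b) (c - d)
  have e5 := min_le_left (a - b) (c + d)
  have e6 := min_le_right (a - b) (c + d)
  have e7 := min_le_left (a - b) (c - d)
  have e8 := min_le_right (a - b) (c - d)
  refine ⟨?_, ?_, ?_⟩
  · apply le_min
    · simp only [m]; linarith
    · simp only [m]; linarith
  · rcases max_cases b d with ⟨h, _⟩ | ⟨h, _⟩
    · rw [h]; simp only [m]; linarith
    · rw [h]; simp only [m]; linarith
  · rcases abs_cases (a - c) with ⟨h, _⟩ | ⟨h, _⟩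
    · rw [h]; simp only [m]; linarith
    · rw [h]; simp only [m]; linarith

theorem t_D1 : P_D1 := by
  intro y1 y2 y3 y4 h1 h2 h3 h4
  rcases le_total y2 y1 with ha | ha <;> rcases le_total y4 y3 with hc | hc
  · rw [abs_of_nonneg (sub_nonneg.mpr ha), abs_of_nonneg (sub_nonneg.mpr hc), max_eq_left ha,
      max_eq_left hc, min_eq_right ha, min_eq_right hc]
    exact d1_core y1 y2 y3 y4 ha hc
  · rw [abs_of_nonneg (sub_nonneg.mpr ha), abs_sub_comm y3 y4, abs_of_nonneg (sub_nonneg.mpr hc),
      max_eq_left ha, max_eq_right hc, min_eq_right ha, min_eq_left hc, add_comm y3 y4]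
    exact d1_core y1 y2 y4 y3 ha hc
  · rw [abs_sub_comm y1 y2, abs_of_nonneg (sub_nonneg.mpr ha), abs_of_nonneg (sub_nonneg.mpr hc),
      max_eq_right ha, max_eq_left hc, min_eq_left ha, min_eq_right hc, add_comm y1 y2]
    exact d1_core y2 y1 y3 y4 ha hc
  · rw [abs_sub_comm y1 y2, abs_of_nonneg (sub_nonneg.mpr ha), abs_sub_comm y3 y4,
      abs_of_nonneg (sub_nonneg.mpr hc), max_eq_right ha, max_eq_right hc, min_eq_left ha,
      min_eq_left hc, add_comm y1 y2, add_comm y3 y4]
    exact d1_core y2 y1 y4 y3 ha hc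

end Pool.Agent.Q291.HEA
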