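import Pool.Agent.Q48.HEA.Base

/-!
# Project HEA: the median weight (for D3)
-/

set_option autoImplicit false

namespace Pool.Agent.Q291.HEA

open MeasureTheory Filter Topology Set

namespace DB

/-- the tail of `|x|` -/
noncomputable def tl (ν : Measure ℝ) (t : ℝ) : ℝ := ν.real {x : ℝ | t < |x|}

theorem tl_meas_set (t : ℝ) : MeasurableSet {x : ℝ | t < |x|} :=
  measurableSet_lt measurable_const (by fun_prop)

theorem tl_anti (ν : Measure ℝ) [IsProbabilityMeasure ν] {s t : ℝ} (h : s ≤ t) : tl ν t ≤ tl ν s :=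
  measureReal_mono (fun x (hx : t < |x|) => lt_of_le_of_lt h hx)

theorem exists_weight (ν : Measure ℝ) [IsProbabilityMeasure ν] (hint : Integrable (fun x : ℝ => x) ν) :
    ∃ h : ℝ → ℝ, Measurable h ∧ (∀ x, 0 ≤ h x ∧ h x ≤ 1) ∧ ∫ x, h x ∂ν = 1 / 2 ∧
      ∀ t, 0 ≤ t → ∫ x, h x * (if t < |x| then 1 else 0) ∂ν = min (tl ν t) (1 / 2) := by
  classical
  set S : Set ℝ := {t | 0 ≤ t ∧ tl ν t ≤ 1 / 2} with hS
  -- nonempty
  have hSne : S.Nonempty := by
    set A : ℝ := ∫ x, |x| ∂ν with hA
    have hA0 : 0 ≤ A := integral_nonneg fun x => abs_nonneg x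
    refine ⟨2 * A + 1, by positivity, ?_⟩
    have h1 := mul_meas_ge_le_integral_of_nonneg (μ := ν) (f := fun x : ℝ => |x|)
      (Eventually.of_forall fun x => abs_nonneg x) hint.abs (2 * A + 1)
    have h2 : tl ν (2 * A + 1) ≤ ν.real {x : ℝ | 2 * A + 1 ≤ |x|} :=
      measureReal_mono (fun x (hx : 2 * A + 1 < |x|) => hx.le)
    have h3 : (2 * A + 1) * tl ν (2 * A + 1) ≤ A :=
      (mul_le_mul_of_nonneg_left h2 (by positivity)).trans h1
    by_contra hcon
    push Not at hcon
    nlinarith
  have hSbdd : BddBelow S := ⟨0, fun t ht => ht.1⟩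
  set M : ℝ := sInf S with hM
  have hM0 : 0 ≤ M := le_csInf hSne fun t ht => ht.1
  -- the tail at `M`
  have hTM : tl ν M ≤ 1 / 2 := by
    have hU : {x : ℝ | M < |x|} = ⋃ n : ℕ, {x : ℝ | M + 1 / ((n : ℝ) + 1) < |x|} := by
      ext x
      simp only [Set.mem_ofPred_eq, mem_iUnion]
      constructor
      · intro hx
        obtain ⟨n, hn⟩ := exists_nat_one_div_lt (sub_pos.mpr hx)
        exact ⟨n, by linarith⟩
      · rintro ⟨n, hn⟩
        have : (0 : ℝ) < 1 / ((n : ℝ) + 1) := by positivity
        linarith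
    have hmono : Monotone fun n : ℕ => {x : ℝ | M + 1 / ((n : ℝ) + 1) < |x|} := by
      intro m n hmn x hx
      simp only [Set.mem_ofPred_eq] at hx ⊢
      have : 1 / ((n : ℝ) + 1) ≤ 1 / ((m : ℝ) + 1) := by
        apply one_div_le_one_div_of_le (by positivity)
        have : (m : ℝ) ≤ n := by exact_mod_cast hmn
        linarith
      linarith
    have hlim := tendsto_measure_iUnion_atTop (μ := ν) hmono
    rw [← hU] at hlim
    have hle : ∀ n : ℕ, ν {x : ℝ | M + 1 / ((n : ℝ) + 1) < |x|} ≤ ENNReal.ofReal (1 / 2) := by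
      intro n
      have hlt : sInf S < M + 1 / ((n : ℝ) + 1) := by
        have : (0 : ℝ) < 1 / ((n : ℝ) + 1) := by positivity
        linarith
      obtain ⟨t, ht, htlt⟩ := exists_lt_of_csInf_lt hSne hlt
      have h1 : tl ν (M + 1 / ((n : ℝ) + 1)) ≤ 1 / 2 := (tl_anti ν htlt.le).trans ht.2
      unfold tl at h1
      rw [Measure.real] at h1
      rw [← ENNReal.ofReal_toReal (measure_ne_top ν {x : ℝ | M + 1 / ((n : ℝ) + 1) < |x|})]
      exact ENNReal.ofReal_le_ofReal h1
    have h2 := le_of_tendsto' hlim hle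
    unfold tl
    rw [Measure.real]
    have := ENNReal.toReal_mono (by simp) h2
    rwa [ENNReal.toReal_ofReal (by norm_num)] at this
  have hgt : ∀ t, 0 ≤ t → t < M → 1 / 2 < tl ν t := by
    intro t ht htM
    by_contra hcon
    push Not at hcon
    have : M ≤ t := csInf_le hSbdd ⟨ht, hcon⟩
    linarith
  have hTM' : 1 / 2 ≤ ν.real {x : ℝ | M ≤ |x|} := by
    have hI : {x : ℝ | M ≤ |x|} = ⋂ n : ℕ, {x : ℝ | M - 1 / ((n : ℝ) + 1) < |x|} := by
      ext x
      simp only [Set.mem_ofPred_eq, mem_iInter]
      constructor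
      · intro hx n
        have : (0 : ℝ) < 1 / ((n : ℝ) + 1) := by positivity
        linarith
      · intro hx
        by_contra hcon
        push Not at hcon
        obtain ⟨n, hn⟩ := exists_nat_one_div_lt (sub_pos.mpr hcon)
        have := hx n
        linarith
    have hanti : Antitone fun n : ℕ => {x : ℝ | M - 1 / ((n : ℝ) + 1) < |x|} := by
      intro m n hmn x hx
      simp only [Set.mem_ofPred_eq] at hx ⊢
      have : 1 / ((n : ℝ) + 1) ≤ 1 / ((m : ℝ) + 1) := by
        apply one_div_le_one_div_of_le (by positivity)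
        have : (m : ℝ) ≤ n := by exact_mod_cast hmn
        linarith
      linarith
    have hlim := tendsto_measure_iInter_atTop (μ := ν)
      (fun n : ℕ => (tl_meas_set (M - 1 / ((n : ℝ) + 1))).nullMeasurableSet) hanti
      ⟨0, measure_ne_top _ _⟩
    rw [← hI] at hlim
    have hge : ∀ n : ℕ, ENNReal.ofReal (1 / 2) ≤ ν {x : ℝ | M - 1 / ((n : ℝ) + 1) < |x|} := by
      intro n
      have hn : (0 : ℝ) < 1 / ((n : ℝ) + 1) := by positivity
      have h1 : 1 / 2 ≤ tl ν (M - 1 / ((n : ℝ) + 1)) := by
        rcases le_or_gt 0 (M - 1 / ((n : ℝ) + 1)) with h | h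
        · exact (hgt _ h (by linarith)).le
        · have h2 : {x : ℝ | M - 1 / ((n : ℝ) + 1) < |x|} = univ := by
            ext x
            simp only [Set.mem_ofPred_eq, mem_univ, iff_true]
            exact lt_of_lt_of_le h (abs_nonneg x)
          unfold tl
          rw [h2]
          simp
          norm_num
      unfold tl at h1
      rw [Measure.real] at h1
      rw [← ENNReal.ofReal_toReal (measure_ne_top ν {x : ℝ | M - 1 / ((n : ℝ) + 1) < |x|})]
      exact ENNReal.ofReal_le_ofReal h1
    have h2 := ge_of_tendsto' hlim hge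
    rw [Measure.real]
    have := ENNReal.toReal_mono (measure_ne_top _ _) h2
    rwa [ENNReal.toReal_ofReal (by norm_num)] at this
  -- the atom
  set p : ℝ := ν.real {x : ℝ | |x| = M} with hp
  have hp0 : 0 ≤ p := measureReal_nonneg
  have hmeq : MeasurableSet {x : ℝ | |x| = M} := measurableSet_eq_fun (by fun_prop) measurable_const
  have hsum : ν.real {x : ℝ | M ≤ |x|} = tl ν M + p := by
    have h1 : {x : ℝ | M ≤ |x|} = {x : ℝ | M < |x|} ∪ {x : ℝ | |x| = M} := by
      ext x
      simp only [Set.mem_ofPred_eq, mem_union]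
      constructor
      · intro h
        rcases eq_or_lt_of_le h with h2 | h2
        · exact Or.inr h2.symm
        · exact Or.inl h2
      · rintro (h | h)
        · exact h.le
        · exact h.ge
    rw [h1, measureReal_union _ hmeq]
    · rfl
    · rw [Set.disjoint_left]
      intro x hx hx'
      simp only [Set.mem_ofPred_eq] at hx hx'
      linarith
  obtain ⟨θ, hθ0, hθ1, hθp⟩ : ∃ θ : ℝ, 0 ≤ θ ∧ θ ≤ 1 ∧ θ * p = 1 / 2 - tl ν M := by
    rcases eq_or_lt_of_le hp0 with h | h
    · refine ⟨0, le_rfl, zero_le_one, ?_⟩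
      rw [zero_mul]
      linarith
    · refine ⟨(1 / 2 - tl ν M) / p, div_nonneg (by linarith) hp0, ?_, ?_⟩
      · rw [div_le_one h]
        linarith
      · field_simp
  set h : ℝ → ℝ := fun x => {x : ℝ | M < |x|}.indicator (fun _ => (1 : ℝ)) x +
    {x : ℝ | |x| = M}.indicator (fun _ => θ) x with hh
  have hval1 : ∀ x, M < |x| → h x = 1 := by
    intro x hx
    simp only [hh]
    rw [indicator_of_mem (show x ∈ {x : ℝ | M < |x|} from hx),
      indicator_of_notMem (show x ∉ {x : ℝ | |x| = M} from fun h' => by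
        simp only [Set.mem_ofPred_eq] at h'; linarith), add_zero]
  have hval2 : ∀ x, |x| = M → h x = θ := by
    intro x hx
    simp only [hh]
    rw [indicator_of_notMem (show x ∉ {x : ℝ | M < |x|} from fun h' => by
        simp only [Set.mem_ofPred_eq] at h'; linarith),
      indicator_of_mem (show x ∈ {x : ℝ | |x| = M} from hx), zero_add]
  have hval3 : ∀ x, |x| < M → h x = 0 := by
    intro x hx
    simp only [hh]
    rw [indicator_of_notMem (show x ∉ {x : ℝ | M < |x|} from fun h' => by
        simp only [Set.mem_ofPred_eq] at h'; linarith),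
      indicator_of_notMem (show x ∉ {x : ℝ | |x| = M} from fun h' => by
        simp only [Set.mem_ofPred_eq] at h'; linarith), add_zero]
  have hmeas : Measurable h :=
    (measurable_const.indicator (tl_meas_set M)).add (measurable_const.indicator hmeq)
  have hi1 : Integrable ({x : ℝ | M < |x|}.indicator (fun _ => (1 : ℝ))) ν :=
    (integrable_const (1 : ℝ)).indicator (tl_meas_set M)
  have hi2 : Integrable ({x : ℝ | |x| = M}.indicator (fun _ => θ)) ν :=
    (integrable_const θ).indicator hmeq
  have hint2 : ∫ x, h x ∂ν = 1 / 2 := by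
    simp only [hh]
    rw [integral_add hi1 hi2, integral_indicator_const _ (tl_meas_set M),
      integral_indicator_const _ hmeq]
    simp only [smul_eq_mul, mul_one]
    change tl ν M + p * θ = 1 / 2
    linarith
  refine ⟨h, hmeas, fun x => ?_, hint2, fun t ht => ?_⟩
  · rcases lt_trichotomy |x| M with hx | hx | hx
    · rw [hval3 x hx]; exact ⟨le_rfl, zero_le_one⟩
    · rw [hval2 x hx]; exact ⟨hθ0, hθ1⟩
    · rw [hval1 x hx]; exact ⟨zero_le_one, le_rfl⟩
  · rcases lt_or_ge t M with htM | htM
    · have h1 : ∀ x, h x * (if t < |x| then 1 else 0) = h x := by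
        intro x
        split_ifs with hx
        · rw [mul_one]
        · rw [hval3 x (by push Not at hx; linarith), mul_zero]
      simp_rw [h1]
      rw [hint2, min_eq_right (hgt t ht htM).le]
    · have h1 : ∀ x, h x * (if t < |x| then 1 else 0) =
          {x : ℝ | t < |x|}.indicator (fun _ => (1 : ℝ)) x := by
        intro x
        by_cases hx : t < |x|
        · rw [if_pos hx, hval1 x (by linarith), indicator_of_mem (show x ∈ {x : ℝ | t < |x|} from hx),
            mul_one]
        · rw [if_neg hx, mul_zero, indicator_of_notMem (show x ∉ {x : ℝ | t < |x|} from hx)]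
      simp_rw [h1]
      rw [integral_indicator_const _ (tl_meas_set t), smul_eq_mul, mul_one]
      change tl ν t = _
      rw [min_eq_left ((tl_anti ν htM).trans hTM)]

end DB

end Pool.Agent.Q291.HEA
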